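import Pool.Agent.W852.BL.Nat

/-!
# The chromatic number jump can come a linear number of steps after the bilinked collection

For every large `k` the random graph process contains, with probability bounded below, a bilinked
collection of `k` stable sets at least `k * n` steps before its chromatic number jumps to `k + 1`.
-/

set_option autoImplicit false

namespace Pool.Agent.Results.MP_0be95c_pr.LinearGap

open Finset Filter Topology Asymptotics Pool.Agent.W852.BL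
open scoped Classical

noncomputable section

/-- orderings of all pairs of vertices -/
abbrev Ordering (n : ℕ) : Type := Fin (n.choose 2) ≃ (⊤ : SimpleGraph (Fin n)).edgeSet

/-- the graph `G_m` of the process: its edges are the first `m` pairs of the ordering -/
def stage {n : ℕ} (e : Ordering n) (m : ℕ) : SimpleGraph (Fin n) :=
  SimpleGraph.fromEdgeSet {x | ∃ i : Fin (n.choose 2), (i : ℕ) < m ∧ (e i).val = x}

/-- probability of an event for a uniformly random ordering of all pairs -/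
def prob (n : ℕ) (A : Ordering n → Prop) : ℝ :=
  (Nat.card {e : Ordering n // A e} : ℝ) / (Nat.card (Ordering n) : ℝ)

/-- `V 0, ..., V (k - 1)` is a bilinked collection of stable sets of `G` -/
def Bilinked {n : ℕ} (G : SimpleGraph (Fin n)) (k : ℕ) (V : Fin k → Set (Fin n)) : Prop :=
  (∀ i, (V i).Nonempty) ∧ (∀ i, G.IsIndepSet (V i)) ∧ (∀ i j, i ≠ j → Disjoint (V i) (V j)) ∧
    ∀ i j, i ≠ j → (G.induce (V i ∪ V j)).Connected

/-- the union of the sets induces a triangle -/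
def IsTriangle {n : ℕ} (G : SimpleGraph (Fin n)) (k : ℕ) (V : Fin k → Set (Fin n)) : Prop :=
  Nonempty (G.induce (⋃ i, V i) ≃g (⊤ : SimpleGraph (Fin 3)))

/-- the first step with a bilinked collection of `k` stable sets not inducing a triangle -/
def tauB {n : ℕ} (k : ℕ) (e : Ordering n) : ℕ :=
  sInf {m | ∃ V : Fin k → Set (Fin n), Bilinked (stage e m) k V ∧ ¬ IsTriangle (stage e m) k V}

/-- the first step at which the chromatic number is at least `k + 1` -/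
def tauChi {n : ℕ} (k : ℕ) (e : Ordering n) : ℕ :=
  sInf {m | ((k + 1 : ℕ) : ℕ∞) ≤ (stage e m).chromaticNumber}

theorem stage_adj {n : ℕ} (e : Ordering n) (m : ℕ) {v w : Fin n} :
    (stage e m).Adj v w ↔ ∃ i : Fin (n.choose 2), (i : ℕ) < m ∧ (e i).val = s(v, w) := by
  unfold stage
  rw [SimpleGraph.fromEdgeSet_adj]
  constructor
  · rintro ⟨⟨i, hi, h⟩, _⟩
    exact ⟨i, hi, h⟩
  · rintro ⟨i, hi, h⟩
    refine ⟨⟨i, hi, h⟩, ?_⟩
    have := (e i).2
    rw [h, SimpleGraph.mem_edgeSet, SimpleGraph.top_adj] at this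
    exact this

theorem stage_color {n K m m1 : ℕ} {σ : Fin n → Fin (K + 1)} {e : Ordering n}
    (he : e ∈ avd (fun _ => Fm σ) m1) (hm : m ≤ m1) {v w : Fin n} (h : (stage e m).Adj v w) :
    σ v ≠ σ w := by
  rw [stage_adj] at h
  obtain ⟨i, hi, h⟩ := h
  have h1 := mem_avd.1 he i (by omega)
  rw [mem_Fm, h, Sym2.map_mk, Sym2.mk_isDiag_iff] at h1
  exact h1

theorem stage_top {n : ℕ} (e : Ordering n) : stage e (n.choose 2) = ⊤ := by
  ext v w
  rw [stage_adj, SimpleGraph.top_adj]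
  constructor
  · rintro ⟨i, hi, h⟩
    have := (e i).2
    rw [h, SimpleGraph.mem_edgeSet, SimpleGraph.top_adj] at this
    exact this
  · intro h
    refine ⟨e.symm ⟨s(v, w), by rw [SimpleGraph.mem_edgeSet, SimpleGraph.top_adj]; exact h⟩, ?_, ?_⟩
    · exact Fin.isLt _
    · simp

theorem chi_gt {n K m1 : ℕ} {σ : Fin n → Fin (K + 1)} {e : Ordering n}
    (he : e ∈ avd (fun _ => Fm σ) m1) (hn : K + 2 ≤ n) : m1 < tauChi (K + 1) e := by
  have hne : {m | ((K + 1 + 1 : ℕ) : ℕ∞) ≤ (stage e m).chromaticNumber}.Nonempty := by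
    refine ⟨n.choose 2, ?_⟩
    rw [Set.mem_ofPred_eq, stage_top, SimpleGraph.chromaticNumber_top, Fintype.card_fin]
    exact_mod_cast hn
  have h := Nat.sInf_mem hne
  by_contra hle
  rw [not_lt] at hle
  rw [Set.mem_ofPred_eq] at h
  have hcol : (stage e (sInf {m | ((K + 1 + 1 : ℕ) : ℕ∞) ≤ (stage e m).chromaticNumber})).Colorable
      (K + 1) := by
    refine ⟨SimpleGraph.Coloring.mk σ ?_⟩
    intro v w hvw
    exact stage_color he hle hvw
  have h2 := h.trans hcol.chromaticNumber_le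
  have h3 : K + 1 + 1 ≤ K + 1 := by exact_mod_cast h2
  omega

theorem bil_le {n K l m0 m1 : ℕ} {σ : Fin n → Fin (K + 1)} (hσ : σ ∈ Bal n K l) (hl : 1 ≤ l)
    {e : Ordering n} (he : goodE σ l m0 m1 e) (hm : m0 ≤ m1) (hK : 3 ≤ K) :
    tauB (K + 1) e ≤ m0 := by
  obtain ⟨h1, h2, h3⟩ := he
  have key : ∀ r : Fin n → Fin n → Prop, ¬ e ∈ avd (fun _ => PX r) m0 →
      ∃ v w, r v w ∧ (stage e m0).Adj v w := by
    intro r hr
    rw [mem_avd] at hr
    push Not at hr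
    obtain ⟨i, hi, hr⟩ := hr
    rw [mem_PX] at hr
    obtain ⟨v, w, hvw, hr⟩ := hr
    exact ⟨v, w, hr, (stage_adj e m0).2 ⟨i, hi, hvw⟩⟩
  obtain ⟨U, hU1, hU2, hU3⟩ := det (stage e m0) hσ hl
    (by
      intro φ a b c
      obtain ⟨v, w, ⟨g1, g2⟩, g3⟩ := key _ (h2 φ (mem_PhB.2 ⟨a, b, c⟩))
      exact ⟨v, w, g1, g2, g3⟩)
    (by
      intro i j hij S T hdis hS hT a b c d
      have hmem : (S, T) ∈ (VV σ (i, j)).powerset ×ˢ (VV σ (i, j)).powerset := by
        rw [mem_product, mem_powerset, mem_powerset]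
        constructor
        · intro v hv
          simpa [VV] using hS v hv
        · intro v hv
          simpa [VV] using hT v hv
      obtain ⟨v, w, ⟨g1, g2, g4⟩, g3⟩ := key _ (h3 (i, j) (S, T) hmem ⟨hij, hdis, a, b, c, d⟩)
      exact ⟨v, g1, w, g2, g4, g3⟩)
  have hdisj : ∀ i j, i ≠ j → Disjoint (U i) (U j) := by
    intro i j hij
    rw [Set.disjoint_left]
    intro v hv hv'
    exact hij ((hU1 i v hv).symm.trans (hU1 j v hv'))
  apply Nat.sInf_le
  refine ⟨U, ⟨hU2, ?_, hdisj, hU3⟩, ?_⟩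
  · intro i v hv w hw _ hadj
    exact stage_color h1 hm hadj ((hU1 i v hv).trans (hU1 i w hw).symm)
  · rintro ⟨φ⟩
    choose u hu using hU2
    let g : Fin (K + 1) → ↥(⋃ i, U i) := fun i => ⟨u i, Set.mem_iUnion.2 ⟨i, hu i⟩⟩
    have hg : Function.Injective (fun i => φ (g i)) := by
      intro i j hij
      have h4 := φ.injective hij
      have h5 : u i = u j := congrArg Subtype.val h4
      rw [← hU1 i (u i) (hu i), ← hU1 j (u j) (hu j), h5]
    have h6 := Fintype.card_le_of_injective _ hg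
    rw [Fintype.card_fin, Fintype.card_fin] at h6
    omega

theorem prob_eq {n : ℕ} (A : Ordering n → Prop) : prob n A = pr A := pr_nat A

theorem gap {K μ l n m1 m0 : ℕ} (hL : 1000000 ≤ Real.log ((K : ℝ) + 1))
    (hμ : 2 * Real.log ((K : ℝ) + 1) ≤ μ) (hl : l = (K + 1) * μ) (hn : n = (K + 1) * l)
    (hm1 : m1 = ⌊(((K : ℝ) + 1) * Real.log ((K : ℝ) + 1) - 2 * ((K : ℝ) + 1)) * n⌋₊)
    (hm0 : m0 = m1 - (K + 1) * n) :
    1 / (4 * CC K (1 / (2 * ((K : ℝ) + 1)))) ≤ prob n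
      (fun e => tauB (K + 1) e + (K + 1) * n ≤ tauChi (K + 1) e) := by
  obtain ⟨hμ1, hl1, hsum, hm, hK, h14, hδ, hlam, hb1, hb2, hhalf⟩ := params hL hμ hl hn hm1 hm0
  clear hm1 hm0
  have hK3 : 3 ≤ K := by
    by_contra hlt
    have hle : (K : ℝ) ≤ 3 := by exact_mod_cast (by omega : K ≤ 3)
    have h5 : Real.log ((K : ℝ) + 1) ≤ (K : ℝ) + 1 - 1 :=
      Real.log_le_sub_one_of_pos (by positivity)
    linarith
  have hnK : K + 2 ≤ n := by
    have h6 : (K + 1) * 1 ≤ (K + 1) * μ := Nat.mul_le_mul_left _ hμ1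
    rw [← hl] at h6
    have h7 : (K + 1) * (K + 1) ≤ (K + 1) * l := Nat.mul_le_mul_left _ (by omega)
    rw [← hn] at h7
    have h8 : (K + 1) * 2 ≤ (K + 1) * (K + 1) := Nat.mul_le_mul_left _ (by omega)
    omega
  have hhalf' : ∀ σ ∈ Bal n K l, P1 n l m1 / 2 ≤ pr (goodE σ l m0 m1) := by
    intro σ hσ
    exact pr_half hn hσ hl1 (by omega) hm rfl hL hb1 hb2 hhalf
  have h := exists_good hl hn hμ1 hK h14 hδ hlam hm (fun σ e => goodE σ l m0 m1 e)
    (fun σ e he => he.1) hhalf'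
  rw [prob_eq]
  refine le_trans h (pr_mono ?_)
  rintro e ⟨σ, hσ, he⟩
  have g1 := bil_le hσ hl1 he (by omega) hK3
  have g2 := chi_gt he.1 hnK
  omega

theorem prob_add {n : ℕ} {A B : Ordering n → Prop} (h : ∀ e, A e → ¬ B e) :
    prob n A + prob n B ≤ 1 := by
  rw [prob_eq, prob_eq]
  exact pr_add h

theorem result : ∀ k : ℕ, Real.exp 1000000 ≤ k →
    (∃ c : ℝ, 0 < c ∧ ∃ n₀ : ℕ, ∀ n ≥ n₀, k ^ 2 ∣ n →
      c ≤ prob n (fun e => tauB k e + k * n ≤ tauChi k e)) ∧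
    ∀ f : ℕ → ℝ, f =o[atTop] (fun n => (n : ℝ)) →
      ¬ Tendsto (fun n => prob n (fun e => |(tauChi k e : ℝ) - tauB k e| ≤ f n)) atTop (𝓝 1) := by
  intro k hk
  have hk0 : 0 < k := by
    have : (0 : ℝ) < k := lt_of_lt_of_le (Real.exp_pos _) hk
    exact_mod_cast this
  obtain ⟨K, rfl⟩ : ∃ K, k = K + 1 := ⟨k - 1, by omega⟩
  have hL : 1000000 ≤ Real.log ((K : ℝ) + 1) := by
    rw [Real.le_log_iff_exp_le (by positivity)]
    exact_mod_cast hk
  have hc : 0 < 1 / (4 * CC K (1 / (2 * ((K : ℝ) + 1)))) := by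
    have := CC_pos K (δ := 1 / (2 * ((K : ℝ) + 1))) (by positivity)
    positivity
  have hmain : ∀ n ≥ (K + 1) ^ 2 * ⌈2 * Real.log ((K : ℝ) + 1)⌉₊, (K + 1) ^ 2 ∣ n →
      1 / (4 * CC K (1 / (2 * ((K : ℝ) + 1)))) ≤
        prob n (fun e => tauB (K + 1) e + (K + 1) * n ≤ tauChi (K + 1) e) := by
    rintro n hn ⟨μ, rfl⟩
    have h1 : ⌈2 * Real.log ((K : ℝ) + 1)⌉₊ ≤ μ := Nat.le_of_mul_le_mul_left hn (by positivity)
    have h3 : (K + 1) ^ 2 * μ = (K + 1) * ((K + 1) * μ) := by ring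
    exact gap hL (Nat.ceil_le.1 h1) rfl h3 rfl rfl
  refine ⟨⟨_, hc, _, hmain⟩, ?_⟩
  intro f hf ht
  have h1 : ∀ᶠ n : ℕ in atTop, ‖f n‖ ≤ 1 * ‖(n : ℝ)‖ := hf.bound one_pos
  have h2 : ∀ᶠ n : ℕ in atTop, 1 - 1 / (4 * CC K (1 / (2 * ((K : ℝ) + 1)))) <
      prob n (fun e => |(tauChi (K + 1) e : ℝ) - tauB (K + 1) e| ≤ f n) :=
    (tendsto_order.1 ht).1 _ (by linarith)
  obtain ⟨N, hN⟩ := eventually_atTop.1 (h1.and h2)
  set N1 := (K + 1) ^ 2 * (⌈2 * Real.log ((K : ℝ) + 1)⌉₊ + N + 1) with hN1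
  have hN1N : N ≤ N1 := by
    have : 1 * (⌈2 * Real.log ((K : ℝ) + 1)⌉₊ + N + 1) ≤ N1 :=
      Nat.mul_le_mul_right _ (Nat.one_le_pow _ _ (by omega))
    omega
  have hN1p : 1 ≤ N1 := by
    have : 1 * (⌈2 * Real.log ((K : ℝ) + 1)⌉₊ + N + 1) ≤ N1 :=
      Nat.mul_le_mul_right _ (Nat.one_le_pow _ _ (by omega))
    omega
  have h3 := hmain N1 (Nat.mul_le_mul_left _ (by omega)) ⟨_, rfl⟩
  obtain ⟨h4, h5⟩ := hN N1 hN1N
  have h6 : prob N1 (fun e => tauB (K + 1) e + (K + 1) * N1 ≤ tauChi (K + 1) e) +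
      prob N1 (fun e => |(tauChi (K + 1) e : ℝ) - tauB (K + 1) e| ≤ f N1) ≤ 1 := by
    apply prob_add
    intro e he he'
    have a1 : ((tauB (K + 1) e + (K + 1) * N1 : ℕ) : ℝ) ≤ tauChi (K + 1) e := by
      exact_mod_cast he
    push_cast at a1
    have a2 := (le_abs_self _).trans he'
    have a3 : f N1 ≤ N1 := by
      have := (le_abs_self _).trans h4
      simpa using this
    have a4 : (1 : ℝ) ≤ N1 := by exact_mod_cast hN1p
    have a5 : (0 : ℝ) < K := by
      have := Real.log_le_sub_one_of_pos (x := (K : ℝ) + 1) (by positivity)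
      linarith
    have a6 : 0 < (K : ℝ) * N1 := mul_pos a5 (by linarith)
    linarith
  linarith

end

end Pool.Agent.Results.MP_0be95c_pr.LinearGap
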